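import Pool.Agent.Helper85_Idx.Stmts

/-!
# IDX module TDIS: disjoint ranges of leaves have different weights
-/

set_option autoImplicit false

namespace Pool.Agent.Idx.H33

open Finset

theorem digit_bound (c : ℕ → ℤ) (M : ℕ) (h : ∀ e < M, |c e| ≤ 2) :
    |∑ e ∈ range M, c e * 3 ^ e| ≤ 3 ^ M - 1 := by
  induction M with
  | zero => simp
  | succ M ih =>
    rw [sum_range_succ]
    have h1 := ih (fun e he => h e (by omega))
    have h2 := h M (by omega)
    have h3 : |c M * 3 ^ M| ≤ 2 * 3 ^ M := by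
      rw [abs_mul, abs_of_nonneg (by positivity : (0 : ℤ) ≤ 3 ^ M)]
      exact mul_le_mul_of_nonneg_right h2 (by positivity)
    have h4 := abs_add_le (∑ e ∈ range M, c e * 3 ^ e) (c M * 3 ^ M)
    have h5 : (3 : ℤ) ^ (M + 1) = 3 * 3 ^ M := by ring
    rw [h5]
    linarith

theorem digit_zero (c : ℕ → ℤ) (M : ℕ) (h : ∀ e < M, |c e| ≤ 2)
    (h0 : ∑ e ∈ range M, c e * 3 ^ e = 0) : ∀ e < M, c e = 0 := by
  induction M with
  | zero => intro e he; omega
  | succ M ih =>
    rw [sum_range_succ] at h0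
    have h1 := digit_bound c M (fun e he => h e (by omega))
    have hcM : c M = 0 := by
      by_contra hne
      have h2 : 1 ≤ |c M| := Int.one_le_abs hne
      have h3 : |c M * 3 ^ M| = |c M| * 3 ^ M := by
        rw [abs_mul, abs_of_nonneg (by positivity : (0 : ℤ) ≤ 3 ^ M)]
      have h4 : ∑ e ∈ range M, c e * 3 ^ e = -(c M * 3 ^ M) := by linarith
      rw [h4, abs_neg, h3] at h1
      have h5 : (0 : ℤ) < 3 ^ M := by positivity
      nlinarith
    have h2 := ih (fun e he => h e (by omega)) (by rw [hcM, zero_mul, add_zero] at h0; exact h0)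
    intro e he
    rcases Nat.lt_succ_iff_lt_or_eq.1 he with h3 | h3
    · exact h2 e h3
    · rw [h3]; exact hcM

theorem take_sum (L : List ℤ) (n : ℕ) : (L.take n).sum = ∑ k ∈ range n, L.getD k 0 := by
  induction n with
  | zero => simp
  | succ n ih =>
    rw [List.take_add_one, List.sum_append, ih, sum_range_succ, List.getD_eq_getElem?_getD]
    congr 1
    cases L[n]? <;> simp

theorem sl_sum (L : List ℤ) (i j : ℕ) : (sl L i j).sum = ∑ k ∈ Ico i j, L.getD k 0 := by
  unfold sl
  rw [take_sum, sum_Ico_eq_sum_range]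
  apply sum_congr rfl
  intro k _
  simp [List.getD_eq_getElem?_getD]

theorem sum_getD (L : List ℤ) : L.sum = ∑ k ∈ range L.length, L.getD k 0 := by
  rw [← take_sum, List.take_length]

theorem pidx_append (w : List Bool) (b : Bool) :
    pidx (w ++ [b]) = 2 * pidx w + (if b then 1 else 0) := by
  unfold pidx
  rw [List.foldl_append]
  rfl

theorem leaves_cbt {V : Type} (e : List Bool → V) (x : List Bool → ℤ) (n : ℕ) :
    ∀ w : List Bool, (leaves (cbt e x n w)).length = 2 ^ n ∧
      ∀ k < 2 ^ n, ∃ w', (leaves (cbt e x n w)).getD k 0 = x w' ∧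
        pidx w' = 2 ^ n * pidx w + k := by
  induction n with
  | zero =>
    intro w
    refine ⟨rfl, fun k hk => ⟨w, ?_, ?_⟩⟩
    · have : k = 0 := by simpa using hk
      rw [this]
      rfl
    · have : k = 0 := by simpa using hk
      rw [this]
      simp
  | succ n ih =>
    intro w
    obtain ⟨h1, h2⟩ := ih (w ++ [false])
    obtain ⟨h3, h4⟩ := ih (w ++ [true])
    have hl : leaves (cbt e x (n + 1) w) = leaves (cbt e x n (w ++ [false])) ++
      leaves (cbt e x n (w ++ [true])) := rfl
    rw [hl]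
    refine ⟨by rw [List.length_append, h1, h3]; ring, fun k hk => ?_⟩
    rw [pow_succ] at hk
    by_cases hk2 : k < 2 ^ n
    · obtain ⟨w', h5, h6⟩ := h2 k hk2
      refine ⟨w', ?_, ?_⟩
      · rw [List.getD_append _ _ _ _ (by omega)]
        exact h5
      · rw [h6, pidx_append]
        simp
        ring
    · obtain ⟨w', h5, h6⟩ := h4 (k - 2 ^ n) (by omega)
      refine ⟨w', ?_, ?_⟩
      · rw [List.getD_append_right _ _ _ _ (by omega), h1]
        exact h5
      · rw [h6, pidx_append]
        simp only [if_true]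
        have : 2 ^ n * (2 * pidx w + 1) = 2 ^ (n + 1) * pidx w + 2 ^ n := by ring
        rw [this]
        omega

/-- the residues of the leaf weights -/
def rr (d : ℕ) (k : ℕ) : ℤ :=
  if k < 2 ^ d then 3 ^ (2 ^ d + k) else if k < 2 ^ d + 2 ^ d then -3 ^ (k - 2 ^ d) else
    -(∑ k ∈ range (2 ^ d), 3 ^ (2 ^ d + k)) + ∑ k ∈ range (2 ^ d), 3 ^ k

theorem leaves_tp (d : ℕ) : (leaves (tp d)).length = 2 ^ d ∧ ∀ k < 2 ^ d, ∃ u : ℤ,
    (leaves (tp d)).getD k 0 = QQ d * u + 3 ^ (2 ^ d + k) := by
  obtain ⟨h1, h2⟩ := leaves_cbt (ename d 0) (xp d) d []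
  refine ⟨h1, fun k hk => ?_⟩
  obtain ⟨w', h3, h4⟩ := h2 k hk
  refine ⟨3 ^ d, ?_⟩
  unfold tp
  rw [h3]
  unfold xp
  rw [h4]
  simp [pidx]

theorem leaves_tm (d : ℕ) : (leaves (tm d)).length = 2 ^ d ∧ ∀ k < 2 ^ d, ∃ u : ℤ,
    (leaves (tm d)).getD k 0 = QQ d * u + -3 ^ k := by
  obtain ⟨h1, h2⟩ := leaves_cbt (ename d 1) (xm d) d []
  refine ⟨h1, fun k hk => ?_⟩
  obtain ⟨w', h3, h4⟩ := h2 k hk
  refine ⟨-(2 ^ d * 2 ^ (w'.count true)), ?_⟩
  unfold tm
  rw [h3]
  unfold xm
  rw [h4]
  simp [pidx]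
  ring

theorem sum_mod (q : ℤ) (L : List ℤ) (r : ℕ → ℤ)
    (h : ∀ k < L.length, ∃ u : ℤ, L.getD k 0 = q * u + r k) :
    ∃ u : ℤ, L.sum = q * u + ∑ k ∈ range L.length, r k := by
  have h1 : ∀ k, ∃ u : ℤ, k < L.length → L.getD k 0 = q * u + r k := by
    intro k
    by_cases hk : k < L.length
    · obtain ⟨u, hu⟩ := h k hk
      exact ⟨u, fun _ => hu⟩
    · exact ⟨0, fun hk2 => absurd hk2 hk⟩
  choose u hu using h1
  refine ⟨∑ k ∈ range L.length, u k, ?_⟩
  rw [sum_getD, mul_sum, ← sum_add_distrib]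
  apply sum_congr rfl
  intro k hk
  exact hu k (mem_range.1 hk)

theorem forest_leaves (d : ℕ) : ((forest d).map leaves).flatten =
    leaves (tp d) ++ (leaves (tm d) ++ [-(wt (tp d) + wt (tm d))]) := by
  simp [forest, leaves]

theorem forest_getD (d : ℕ) : (((forest d).map leaves).flatten).length = 2 ^ d + 2 ^ d + 1 ∧
    ∀ k < 2 ^ d + 2 ^ d + 1, ∃ u : ℤ,
      (((forest d).map leaves).flatten).getD k 0 = QQ d * u + rr d k := by
  obtain ⟨h1, h2⟩ := leaves_tp d
  obtain ⟨h3, h4⟩ := leaves_tm d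
  rw [forest_leaves]
  refine ⟨by rw [List.length_append, List.length_append, h1, h3]; simp; ring, fun k hk => ?_⟩
  unfold rr
  by_cases hk1 : k < 2 ^ d
  · rw [if_pos hk1, List.getD_append _ _ _ _ (by omega)]
    exact h2 k hk1
  · rw [if_neg hk1, List.getD_append_right _ _ _ _ (by omega), h1]
    by_cases hk2 : k < 2 ^ d + 2 ^ d
    · rw [if_pos hk2, List.getD_append _ _ _ _ (by omega)]
      exact h4 (k - 2 ^ d) (by omega)
    · rw [if_neg hk2, List.getD_append_right _ _ _ _ (by omega), h3]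
      have hk3 : k - 2 ^ d - 2 ^ d = 0 := by omega
      rw [hk3]
      obtain ⟨u, hu⟩ := sum_mod (QQ d) (leaves (tp d)) (fun k => 3 ^ (2 ^ d + k))
        (by rw [h1]; exact h2)
      obtain ⟨v, hv⟩ := sum_mod (QQ d) (leaves (tm d)) (fun k => -3 ^ k)
        (by rw [h3]; exact h4)
      refine ⟨-(u + v), ?_⟩
      have : ([-(wt (tp d) + wt (tm d))] : List ℤ).getD 0 0 = -(wt (tp d) + wt (tm d)) := rfl
      rw [this]
      unfold wt
      rw [hu, hv, h1, h3, sum_neg_distrib]
      ring

theorem tdis : TdisStmt := by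
  intro d _ i j i' j' hij hji' hij' hj' heq
  obtain ⟨hlen, hget⟩ := forest_getD d
  set L := ((forest d).map leaves).flatten with hL
  rw [hlen] at hj'
  rw [sl_sum, sl_sum] at heq
  set P := 2 ^ d with hP
  have hP1 : 1 ≤ P := Nat.one_le_two_pow
  set a : ℕ → ℤ := fun k => (if k ∈ Ico i j then 1 else 0) - (if k ∈ Ico i' j' then 1 else 0)
    with ha
  have hsum : ∑ k ∈ range (P + P + 1), a k * L.getD k 0 = 0 := by
    have h1 : ∑ k ∈ range (P + P + 1), a k * L.getD k 0 =
        ∑ k ∈ range (P + P + 1), (if k ∈ Ico i j then L.getD k 0 else 0) -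
        ∑ k ∈ range (P + P + 1), (if k ∈ Ico i' j' then L.getD k 0 else 0) := by
      rw [← sum_sub_distrib]
      apply sum_congr rfl
      intro k _
      simp only [ha, sub_mul, ite_mul, one_mul, zero_mul]
    rw [h1, sum_ite_mem, sum_ite_mem]
    have h2 : range (P + P + 1) ∩ Ico i j = Ico i j := by
      apply inter_eq_right.2
      intro k hk
      rw [mem_Ico] at hk
      rw [mem_range]
      omega
    have h3 : range (P + P + 1) ∩ Ico i' j' = Ico i' j' := by
      apply inter_eq_right.2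
      intro k hk
      rw [mem_Ico] at hk
      rw [mem_range]
      omega
    rw [h2, h3, heq, sub_self]
  have hu : ∀ k, ∃ u : ℤ, k < P + P + 1 → L.getD k 0 = QQ d * u + rr d k := by
    intro k
    by_cases hk : k < P + P + 1
    · obtain ⟨u, hu⟩ := hget k hk
      exact ⟨u, fun _ => hu⟩
    · exact ⟨0, fun hk2 => absurd hk2 hk⟩
  choose u hu using hu
  have hdvd : QQ d ∣ ∑ k ∈ range (P + P + 1), a k * rr d k := by
    refine ⟨-∑ k ∈ range (P + P + 1), a k * u k, ?_⟩
    have h1 : ∑ k ∈ range (P + P + 1), a k * L.getD k 0 =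
        QQ d * ∑ k ∈ range (P + P + 1), a k * u k + ∑ k ∈ range (P + P + 1), a k * rr d k := by
      rw [mul_sum, ← sum_add_distrib]
      apply sum_congr rfl
      intro k hk
      rw [hu k (mem_range.1 hk)]
      ring
    rw [h1] at hsum
    linarith
  set z : ℤ := a (P + P) with hz
  set c : ℕ → ℤ := fun e => if e < P then z - a (P + e) else a (e - P) - z with hc
  have hrewrite : ∑ k ∈ range (P + P + 1), a k * rr d k = ∑ e ∈ range (P + P), c e * 3 ^ e := by
    rw [sum_range_succ, sum_range_add, sum_range_add]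
    have h1 : ∑ k ∈ range P, a k * rr d k = ∑ k ∈ range P, a k * 3 ^ (P + k) := by
      apply sum_congr rfl
      intro k hk
      rw [mem_range] at hk
      unfold rr
      rw [if_pos hk]
    have h2 : ∑ k ∈ range P, a (P + k) * rr d (P + k) = ∑ k ∈ range P, -(a (P + k) * 3 ^ k) := by
      apply sum_congr rfl
      intro k hk
      rw [mem_range] at hk
      unfold rr
      rw [if_neg (by omega), if_pos (by omega), ← hP, Nat.add_sub_cancel_left]
      ring
    have h3 : rr d (P + P) = -(∑ k ∈ range P, (3 : ℤ) ^ (P + k)) + ∑ k ∈ range P, (3 : ℤ) ^ k := by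
      unfold rr
      rw [if_neg (by omega), if_neg (by omega)]
    have h4 : ∑ e ∈ range P, c e * 3 ^ e = ∑ e ∈ range P, (z * 3 ^ e + -(a (P + e) * 3 ^ e)) := by
      apply sum_congr rfl
      intro k hk
      rw [mem_range] at hk
      simp only [hc]
      rw [if_pos hk]
      ring
    have h5 : ∑ e ∈ range P, c (P + e) * 3 ^ (P + e) =
        ∑ e ∈ range P, (a e * 3 ^ (P + e) + -(z * 3 ^ (P + e))) := by
      apply sum_congr rfl
      intro k hk
      simp only [hc]
      rw [if_neg (by omega), Nat.add_sub_cancel_left]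
      ring
    rw [h1, h2, h3, h4, h5, sum_add_distrib, sum_add_distrib, sum_neg_distrib, sum_neg_distrib,
      ← mul_sum, ← mul_sum, ← hz]
    ring
  rw [hrewrite] at hdvd
  have habs : ∀ k, |a k| ≤ 1 := by
    intro k
    simp only [ha]
    split_ifs <;> simp
  have hcabs : ∀ e < P + P, |c e| ≤ 2 := by
    intro e _
    simp only [hc]
    have h1 := habs (P + P)
    have h2 := habs (P + e)
    have h3 := habs (e - P)
    rw [← hz] at h1
    split_ifs
    · calc |z - a (P + e)| ≤ |z| + |a (P + e)| := abs_sub _ _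
        _ ≤ 2 := by linarith
    · calc |a (e - P) - z| ≤ |a (e - P)| + |z| := abs_sub _ _
        _ ≤ 2 := by linarith
  have hzero : ∑ e ∈ range (P + P), c e * 3 ^ e = 0 := by
    apply Int.eq_zero_of_abs_lt_dvd hdvd
    have h1 := digit_bound c (P + P) hcabs
    have h2 : QQ d = 3 * 3 ^ (P + P) := by
      unfold QQ
      rw [pow_succ 2 d, ← hP, pow_succ]
      have : P * 2 = P + P := by ring
      rw [this]
      ring
    rw [h2]
    have h3 : (0 : ℤ) < 3 ^ (P + P) := by positivity
    linarith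
  have hall := digit_zero c (P + P) hcabs hzero
  have hA : ∀ k < P, a k = z := by
    intro k hk
    have := hall (P + k) (by omega)
    simp only [hc] at this
    rw [if_neg (by omega), Nat.add_sub_cancel_left] at this
    linarith
  have hB : ∀ k < P, a (P + k) = z := by
    intro k hk
    have := hall k (by omega)
    simp only [hc] at this
    rw [if_pos hk] at this
    linarith
  have hC : ∀ k ≤ P + P, a k = z := by
    intro k hk
    rcases Nat.lt_or_ge k P with h | h
    · exact hA k h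
    · rcases Nat.lt_or_ge k (P + P) with h' | h'
      · have := hB (k - P) (by omega)
        rwa [Nat.add_sub_cancel' h] at this
      · rw [show k = P + P by omega]
  have h1 : a i = 1 := by
    simp only [ha]
    rw [if_pos (mem_Ico.2 ⟨le_refl _, hij⟩), if_neg (by rw [mem_Ico]; omega)]
    simp
  have h2 : a i' = -1 := by
    simp only [ha]
    rw [if_neg (by rw [mem_Ico]; omega), if_pos (mem_Ico.2 ⟨le_refl _, hij'⟩)]
    simp
  have h3 := hC i (by omega)
  have h4 := hC i' (by omega)
  rw [h1] at h3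
  rw [h2] at h4
  rw [← h3] at h4
  norm_num at h4

end Pool.Agent.Idx.H33
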